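import Pool.Agent.Lib.MP_0d68fc_nt.Many2

/-! Almost all short intervals hold many sums of three positive cubes. -/

set_option autoImplicit false

namespace Pool.Agent.Results.MP_0d68fc_nt.ManySums

theorem result : ∀ ε : ℝ, 0 < ε → ∃ C : ℝ, ∀ X H K : ℕ, 1 ≤ H → H ≤ X →
    (Set.ncard {n : ℕ | 1 ≤ n ∧ n ≤ X ∧ Set.ncard {m : ℕ | n < m ∧ m ≤ n + H ∧
        ∃ x y z : ℕ, 0 < x ∧ 0 < y ∧ 0 < z ∧ x ^ 3 + y ^ 3 + z ^ 3 = m} < K} : ℝ) ≤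
      C * (X : ℝ) ^ ε * (K * (X : ℝ) ^ (10 / 9 : ℝ) / H + (X : ℝ) ^ (8 / 9 : ℝ)) := by
  classical
  intro ε hε
  obtain ⟨C, hC⟩ := Pool.Agent.Lib.MP_0d68fc_nt.Many.main hε
  refine ⟨C, fun X H K hH hX => le_trans (le_of_eq ?_) (hC X H K hH hX)⟩
  have h1 : ∀ n : ℕ, Set.ncard {m : ℕ | n < m ∧ m ≤ n + H ∧
      ∃ x y z : ℕ, 0 < x ∧ 0 < y ∧ 0 < z ∧ x ^ 3 + y ^ 3 + z ^ 3 = m} =
      Pool.Agent.Lib.MP_0d68fc_nt.Many.cnt H n := by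
    intro n
    rw [Pool.Agent.Lib.MP_0d68fc_nt.Many.cnt, ← Set.ncard_coe_finset]
    refine Eq.trans ?_ (Set.ncard_image_of_injective _ (add_right_injective n))
    congr 1
    ext m
    simp only [Set.mem_ofPred_eq, Set.mem_image, Finset.coe_filter, Finset.mem_Icc,
      Pool.Agent.Lib.MP_0d68fc_nt.Many.S3]
    constructor
    · rintro ⟨h2, h3, h4⟩
      refine ⟨m - n, ⟨⟨by omega, by omega⟩, ?_⟩, by omega⟩
      rwa [show n + (m - n) = m by omega]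
    · rintro ⟨k, ⟨⟨h2, h3⟩, h4⟩, rfl⟩
      exact ⟨by omega, by omega, h4⟩
  rw [← Set.ncard_coe_finset]
  congr 2
  ext n
  simp only [h1, Finset.coe_filter, Finset.mem_Icc, Set.mem_ofPred_eq, and_assoc]

end Pool.Agent.Results.MP_0d68fc_nt.ManySums
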